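import Pool.Agent.H28.MZ.Targets
import Pool.Agent.H15.LI.LF
import Pool.Agent.H23.GLH.Dirichlet

/-!
# PZ project: OR, symmetry of the orders of vanishing
-/

set_option autoImplicit false

open Complex MeasureTheory Set Filter Topology

namespace Pool.Agent.H29.PZ

open Pool.Agent.H28.MZ Pool.Agent.H23.GLH

/-- functional equation, in terms of `conj (L(1 - conj w))` -/
theorem fe (π : PrimChar) : ∃ (ε : ℂ) (κ : ℝ), ‖ε‖ = 1 ∧ (κ = 0 ∨ κ = 1) ∧ ∀ w : ℂ, w.im ≠ 0 →
    π.L w * (Gammaℂ w * Complex.cos (Real.pi * (w - κ) / 2)) =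
      ε * cexp ((1 / 2 - w) * Real.log π.q) *
        (starRingEnd ℂ) (π.L (1 - (starRingEnd ℂ) w)) := by
  have := π.q_ne
  obtain ⟨ε, κ, hε, hκ, hLF⟩ := Pool.Agent.H15.LI.lf π
  refine ⟨ε, κ, hε, hκ, fun s hs0 => ?_⟩
  have h1 := hLF s hs0
  have h2 : (Pool.Agent.H74.LI.bar π).L (1 - s) =
      (starRingEnd ℂ) (π.L (1 - (starRingEnd ℂ) s)) := by
    have hne : 1 - (starRingEnd ℂ) s ≠ 1 := by
      intro h
      have := congrArg Complex.im h
      simp at this
      exact hs0 this
    have h3 := LFunction_conj π.χ hne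
    rw [map_sub, map_one, conj_conj] at h3
    exact h3
  rw [h2] at h1
  exact h1

lemma gammaC_ne {s : ℂ} (hs : 0 < s.im) : Gammaℂ s ≠ 0 := by
  unfold Gammaℂ
  refine mul_ne_zero (mul_ne_zero two_ne_zero ?_) ?_
  · rw [Complex.cpow_ne_zero_iff]
    left
    refine mul_ne_zero two_ne_zero ?_
    exact_mod_cast Real.pi_ne_zero
  · refine Complex.Gamma_ne_zero fun m hm => ?_
    rw [hm] at hs
    simp at hs

lemma gammaC_diff {s : ℂ} (hs : 0 < s.im) : DifferentiableAt ℂ Gammaℂ s := by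
  unfold Gammaℂ
  refine DifferentiableAt.mul (DifferentiableAt.mul (differentiableAt_const _) ?_) ?_
  · refine DifferentiableAt.const_cpow differentiableAt_id.neg (Or.inl ?_)
    refine mul_ne_zero two_ne_zero ?_
    exact_mod_cast Real.pi_ne_zero
  · refine Complex.differentiableAt_Gamma _ fun m hm => ?_
    rw [hm] at hs
    simp at hs

lemma cos_ne {s : ℂ} (κ : ℝ) (hs : 0 < s.im) :
    Complex.cos (Real.pi * (s - κ) / 2) ≠ 0 := by
  intro h
  rw [Complex.cos_eq_zero_iff] at h
  obtain ⟨k, hk⟩ := h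
  have h1 := congrArg Complex.im hk
  have h2 : ((Real.pi : ℂ) * (s - κ) / 2).im = Real.pi * s.im / 2 := by
    have : ((Real.pi : ℂ) * (s - κ) / 2) = ((Real.pi / 2 : ℝ) : ℂ) * (s - κ) := by
      push_cast; ring
    rw [this, Complex.im_ofReal_mul]
    simp only [Complex.sub_im, Complex.ofReal_im]
    ring
  have h3 : ((2 * (k : ℂ) + 1) * Real.pi / 2).im = 0 := by
    have : ((2 * (k : ℂ) + 1) * Real.pi / 2) = (((2 * (k : ℝ) + 1) * Real.pi / 2 : ℝ) : ℂ) := by
      push_cast; ring
    rw [this, Complex.ofReal_im]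
  rw [h2, h3] at h1
  have := mul_pos Real.pi_pos hs
  linarith

lemma diff_L (π : PrimChar) {s : ℂ} (hs : 0 < s.im) : DifferentiableAt ℂ π.L s := by
  have := π.q_ne
  refine DirichletCharacter.differentiableAt_LFunction _ _ (Or.inl ?_)
  rintro rfl
  simp at hs

lemma isOpen_im : IsOpen {s : ℂ | 0 < s.im} := isOpen_lt continuous_const Complex.continuous_im

lemma analyticAt_of_im {f : ℂ → ℂ} (h : ∀ s : ℂ, 0 < s.im → DifferentiableAt ℂ f s) {s : ℂ}
    (hs : 0 < s.im) : AnalyticAt ℂ f s := by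
  rw [Complex.analyticAt_iff_eventually_differentiableAt]
  filter_upwards [isOpen_im.mem_nhds hs] with z hz
  exact h z hz

/-- the reflected function -/
noncomputable def rf (f : ℂ → ℂ) (w : ℂ) : ℂ := (starRingEnd ℂ) (f (1 - (starRingEnd ℂ) w))

lemma continuous_sigma : Continuous fun w : ℂ => 1 - (starRingEnd ℂ) w :=
  continuous_const.sub Complex.continuous_conj

lemma analyticAt_rf {f : ℂ → ℂ} {ρ : ℂ} (h : AnalyticAt ℂ f (1 - (starRingEnd ℂ) ρ)) :
    AnalyticAt ℂ (rf f) ρ := by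
  rw [Complex.analyticAt_iff_eventually_differentiableAt] at h ⊢
  filter_upwards [continuous_sigma.continuousAt.eventually h] with w hw
  have h1 : DifferentiableAt ℂ (fun z => f (1 - z)) ((starRingEnd ℂ) w) :=
    DifferentiableAt.comp (g := f) (f := fun z : ℂ => 1 - z) _ hw
      ((differentiableAt_const _).sub differentiableAt_id)
  have h2 := h1.conj_conj
  rw [conj_conj] at h2
  exact h2

lemma order_rf {f : ℂ → ℂ} {ρ : ℂ} (h : AnalyticAt ℂ f (1 - (starRingEnd ℂ) ρ)) :
    analyticOrderAt (rf f) ρ = analyticOrderAt f (1 - (starRingEnd ℂ) ρ) := by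
  by_cases ht : analyticOrderAt f (1 - (starRingEnd ℂ) ρ) = ⊤
  · rw [ht, analyticOrderAt_eq_top]
    rw [analyticOrderAt_eq_top] at ht
    filter_upwards [continuous_sigma.continuousAt.eventually ht] with w hw
    rw [rf, hw, map_zero]
  · obtain ⟨n, hn⟩ := ENat.ne_top_iff_exists.1 ht
    rw [← hn]
    rw [eq_comm, h.analyticOrderAt_eq_natCast] at hn
    obtain ⟨g, hg, hg0, hfg⟩ := hn
    rw [(analyticAt_rf h).analyticOrderAt_eq_natCast]
    refine ⟨fun w => (-1) ^ n * rf g w, analyticAt_const.mul (analyticAt_rf hg), ?_, ?_⟩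
    · refine mul_ne_zero (pow_ne_zero _ (by norm_num)) ?_
      rw [rf]
      exact (map_ne_zero _).2 hg0
    · filter_upwards [continuous_sigma.continuousAt.eventually hfg] with w hw
      rw [rf, hw, smul_eq_mul, smul_eq_mul, map_mul, map_pow]
      have e : (starRingEnd ℂ) (1 - (starRingEnd ℂ) w - (1 - (starRingEnd ℂ) ρ)) =
          (w - ρ) * (-1) := by
        simp only [map_sub, map_one, conj_conj]
        ring
      rw [e, mul_pow, rf]
      ring

/-- OR -/
theorem or' : T_OR := by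
  intro π ρ hρ
  have hσ : 0 < (1 - (starRingEnd ℂ) ρ).im := by simpa using hρ
  have hLσ : AnalyticAt ℂ π.L (1 - (starRingEnd ℂ) ρ) :=
    analyticAt_of_im (fun s hs => diff_L π hs) hσ
  have hL : AnalyticAt ℂ π.L ρ := analyticAt_of_im (fun s hs => diff_L π hs) hρ
  constructor
  · obtain ⟨ε, κ, hε, -, hfe⟩ := fe π
    set Y : ℂ → ℂ := fun w => Gammaℂ w * Complex.cos (Real.pi * (w - κ) / 2) with hY
    set E : ℂ → ℂ := fun w => ε * cexp ((1 / 2 - w) * Real.log π.q) with hE
    have hYd : ∀ w : ℂ, 0 < w.im → DifferentiableAt ℂ Y w := by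
      intro w hw
      refine (gammaC_diff hw).mul ?_
      fun_prop
    have hYa : AnalyticAt ℂ Y ρ := analyticAt_of_im hYd hρ
    have hYne : Y ρ ≠ 0 := mul_ne_zero (gammaC_ne hρ) (cos_ne κ hρ)
    have hEd : Differentiable ℂ E := by
      rw [hE]
      fun_prop
    have hEa : AnalyticAt ℂ E ρ := hEd.analyticAt ρ
    have hEne : E ρ ≠ 0 := by
      refine mul_ne_zero ?_ (Complex.exp_ne_zero _)
      intro h
      rw [h, norm_zero] at hε
      exact zero_ne_one hε
    have h1 : analyticOrderAt (π.L * Y) ρ = analyticOrderAt (E * rf π.L) ρ := by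
      refine analyticOrderAt_congr ?_
      filter_upwards [isOpen_im.mem_nhds hρ] with w hw
      have hw' : 0 < w.im := hw
      exact hfe w hw'.ne'
    rw [analyticOrderAt_mul hL hYa, analyticOrderAt_mul hEa (analyticAt_rf hLσ),
      hYa.analyticOrderAt_eq_zero.2 hYne, hEa.analyticOrderAt_eq_zero.2 hEne, add_zero, zero_add,
      order_rf hLσ] at h1
    exact h1
  · intro h
    rw [analyticOrderAt_eq_top] at h
    have hU : IsPreconnected {s : ℂ | 0 < s.im} :=
      (convex_halfSpace_im_gt 0).isPreconnected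
    have hA : AnalyticOnNhd ℂ π.L {s : ℂ | 0 < s.im} := fun s hs =>
      analyticAt_of_im (fun s hs => diff_L π hs) hs
    have h0 := hA.eqOn_zero_of_preconnected_of_eventuallyEq_zero hU hρ h
    have h3 : (3 + I : ℂ) ∈ {s : ℂ | 0 < s.im} := by simp
    have h4 := h0 h3
    have := π.q_ne
    refine DirichletCharacter.LFunction_ne_zero_of_one_le_re π.χ (s := 3 + I) (Or.inr ?_) ?_ h4
    · intro h5
      have := congrArg Complex.im h5
      simp at this
    · simp

end Pool.Agent.H29.PZ
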