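import Pool.Agent.H28.MZ.Targets

/-!
# PZ project: DD, parametrisation of the diagonal
-/

set_option autoImplicit false

open Complex MeasureTheory Set

namespace Pool.Agent.H29.PZ

open Pool.Agent.H28.MZ Pool.Agent.H23.GLH

lemma co_zero (π : PrimChar) : co π 0 = 0 := by
  unfold co
  rw [if_pos rfl]

lemma co_mul (π : PrimChar) {m n : ℕ} (hm : m ≠ 0) (hn : n ≠ 0) :
    co π (m * n) = co π m * co π n := by
  unfold co
  rw [if_neg hm, if_neg hn, if_neg (mul_ne_zero hm hn), Nat.cast_mul, map_mul]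

lemma co_mul_conj (π : PrimChar) {n : ℕ} (hn : n ≠ 0) (hc : Nat.Coprime n π.q) :
    co π n * (starRingEnd ℂ) (co π n) = 1 := by
  unfold co
  rw [if_neg hn, Complex.mul_conj, Complex.normSq_eq_norm_sq]
  have hu : IsUnit (n : ZMod π.q) := (ZMod.isUnit_iff_coprime n π.q).2 hc
  obtain ⟨a, ha⟩ := hu
  rw [← ha, DirichletCharacter.unit_norm_eq_one]
  simp

lemma co_eq_zero (π : PrimChar) {n : ℕ} (hc : ¬ Nat.Coprime n π.q) : co π n = 0 := by
  unfold co
  split_ifs with h
  · rfl
  · exact π.χ.map_nonunit fun hu => hc ((ZMod.isUnit_iff_coprime n π.q).1 hu)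

/-- DD -/
theorem dd : T_DD := by
  classical
  intro π h k s ξ hh hk hhq hkq hξ hs
  obtain ⟨h', hh'⟩ := Nat.gcd_dvd_left h k
  obtain ⟨k', hk'⟩ := Nat.gcd_dvd_right h k
  set g := Nat.gcd h k with hg
  have hg0 : 0 < g := Nat.gcd_pos_of_pos_left k (by omega)
  have hh0 : h' ≠ 0 := by
    rintro rfl
    rw [mul_zero] at hh'
    omega
  have hk0 : k' ≠ 0 := by
    rintro rfl
    rw [mul_zero] at hk'
    omega
  have hcop : Nat.Coprime h' k' := by
    have h1 : Nat.gcd (g * h') (g * k') = g := by rw [← hh', ← hk']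
    rw [Nat.gcd_mul_left] at h1
    exact Nat.eq_of_mul_eq_mul_left hg0 (by rw [h1, mul_one])
  have hPP : PP h k = (h' : ℝ) * k' := by
    unfold PP
    have hgr : (g : ℝ) ≠ 0 := by exact_mod_cast hg0.ne'
    have e1 : (h : ℝ) = g * h' := by exact_mod_cast hh'
    have e2 : (k : ℝ) = g * k' := by exact_mod_cast hk'
    rw [← hg, e1, e2]
    field_simp
  have hPP0 : 0 < PP h k := by
    rw [hPP]
    have : (0 : ℝ) < h' := by exact_mod_cast Nat.pos_of_ne_zero hh0
    have : (0 : ℝ) < k' := by exact_mod_cast Nat.pos_of_ne_zero hk0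
    positivity
  have hh'q : Nat.Coprime h' π.q := Nat.Coprime.coprime_dvd_left ⟨g, by rw [hh', mul_comm]⟩ hhq
  have hk'q : Nat.Coprime k' π.q := Nat.Coprime.coprime_dvd_left ⟨g, by rw [hk', mul_comm]⟩ hkq
  set F : ℕ × ℕ → ℂ := fun p => if p.1 * h = p.2 * k then co π p.1 *
    (starRingEnd ℂ) (co π p.2) *
    ((((p.1 : ℝ) * p.2) ^ (-s) * V ((p.1 : ℝ) * p.2 * ξ) : ℝ) : ℂ) else 0 with hF
  set ι : ℕ → ℕ × ℕ := fun l => (k' * l, h' * l) with hι
  have hinj : Function.Injective ι := by
    intro a b hab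
    have := congrArg Prod.fst hab
    exact Nat.eq_of_mul_eq_mul_left (Nat.pos_of_ne_zero hk0) this
  have hsupp : Function.support F ⊆ Set.range ι := by
    rintro ⟨m, n⟩ hmn
    rw [Function.mem_support] at hmn
    simp only [hF] at hmn
    split_ifs at hmn with heq
    · have h1 : m * h' = n * k' := by
        rw [hh', hk'] at heq
        apply Nat.eq_of_mul_eq_mul_left hg0
        calc g * (m * h') = m * (g * h') := by ring
          _ = n * (g * k') := heq
          _ = g * (n * k') := by ring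
      have h2 : k' ∣ m := (Nat.Coprime.symm hcop).dvd_of_dvd_mul_right ⟨n, by rw [h1, mul_comm]⟩
      obtain ⟨l, hl⟩ := h2
      refine ⟨l, ?_⟩
      have h3 : n = h' * l := by
        apply Nat.eq_of_mul_eq_mul_left (Nat.pos_of_ne_zero hk0)
        calc k' * n = n * k' := mul_comm _ _
          _ = m * h' := h1.symm
          _ = k' * (h' * l) := by rw [hl]; ring
      simp only [hι]
      rw [hl, h3]
    · exact absurd rfl hmn
  have hDS : DS π h k s ξ = ∑' l, F (ι l) := by
    unfold DS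
    exact (hinj.tsum_eq hsupp).symm
  rw [hDS, ← tsum_mul_left]
  unfold Sy
  rw [← tsum_mul_left, Complex.ofReal_tsum]
  refine tsum_congr fun l => ?_
  simp only [hF, hι]
  rw [if_pos (by rw [hh', hk']; ring)]
  by_cases hl : 1 ≤ l ∧ Nat.Coprime l π.q
  · obtain ⟨hl1, hlq⟩ := hl
    rw [if_pos ⟨hl1, hlq⟩]
    have hl0 : l ≠ 0 := by omega
    have hlr : (0 : ℝ) < l := by exact_mod_cast hl1
    have hh'r : (0 : ℝ) < h' := by exact_mod_cast Nat.pos_of_ne_zero hh0
    have hk'r : (0 : ℝ) < k' := by exact_mod_cast Nat.pos_of_ne_zero hk0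
    have eco : co π h * (starRingEnd ℂ) (co π k) *
        (co π (k' * l) * (starRingEnd ℂ) (co π (h' * l))) = 1 := by
      rw [co_mul π hk0 hl0, co_mul π hh0 hl0]
      have e3 : co π h = co π g * co π h' := by
        conv_lhs => rw [hh']
        exact co_mul π hg0.ne' hh0
      have e4 : co π k = co π g * co π k' := by
        conv_lhs => rw [hk']
        exact co_mul π hg0.ne' hk0
      rw [e3, e4]
      have hgq : Nat.Coprime g π.q := Nat.Coprime.coprime_dvd_left ⟨h', hh'⟩ hhq
      have a1 := co_mul_conj π hg0.ne' hgq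
      have a2 := co_mul_conj π hh0 hh'q
      have a3 := co_mul_conj π hk0 hk'q
      have a4 := co_mul_conj π hl0 hlq
      simp only [map_mul]
      calc _ = (co π g * (starRingEnd ℂ) (co π g)) * (co π h' * (starRingEnd ℂ) (co π h')) *
            (co π k' * (starRingEnd ℂ) (co π k')) * (co π l * (starRingEnd ℂ) (co π l)) := by ring
        _ = 1 := by rw [a1, a2, a3, a4]; ring
    have ereal : (((k' * l : ℕ) : ℝ) * ((h' * l : ℕ) : ℝ)) ^ (-s) *
        V (((k' * l : ℕ) : ℝ) * ((h' * l : ℕ) : ℝ) * ξ) =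
        PP h k ^ (-s) * ((l : ℝ) ^ (-(2 * s)) * V ((l : ℝ) ^ 2 / (1 / (PP h k * ξ)))) := by
      push_cast
      have e5 : (k' : ℝ) * l * (h' * l) = PP h k * (l : ℝ) ^ 2 := by
        rw [hPP]
        ring
      rw [e5, Real.mul_rpow hPP0.le (by positivity), ← Real.rpow_natCast, ← Real.rpow_mul hlr.le,
        mul_assoc]
      congr 3
      · push_cast
        ring
      · field_simp
    rw [ereal]
    generalize PP h k ^ (-s) * ((l : ℝ) ^ (-(2 * s)) * V ((l : ℝ) ^ 2 / (1 / (PP h k * ξ)))) = z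
    calc co π h * (starRingEnd ℂ) (co π k) *
          (co π (k' * l) * (starRingEnd ℂ) (co π (h' * l)) * (z : ℂ)) =
        co π h * (starRingEnd ℂ) (co π k) *
          (co π (k' * l) * (starRingEnd ℂ) (co π (h' * l))) * (z : ℂ) := by ring
      _ = _ := by rw [eco, one_mul]
  · rw [if_neg hl, mul_zero, Complex.ofReal_zero]
    have hz : co π (k' * l) = 0 := by
      rcases Nat.eq_zero_or_pos l with h0 | h0
      · rw [h0, mul_zero, co_zero]
      · have : ¬ Nat.Coprime l π.q := fun h => hl ⟨h0, h⟩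
        rw [co_mul π hk0 h0.ne', co_eq_zero π this, mul_zero]
    rw [hz]
    ring

end Pool.Agent.H29.PZ
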