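import Pool.Agent.H28.MZ.Targets

/-!
# PZ project: LG, distance of logarithms of integers
-/

set_option autoImplicit false

open Complex MeasureTheory Set

namespace Pool.Agent.H29.PZ

open Pool.Agent.H28.MZ

lemma lg_aux (m n : ℕ) (hn : 1 ≤ n) (h : n < m) :
    1 / (2 * Real.sqrt ((m : ℝ) * n)) ≤ Real.log m - Real.log n := by
  have hn' : (1 : ℝ) ≤ n := by exact_mod_cast hn
  have hmn : (n : ℝ) + 1 ≤ m := by exact_mod_cast h
  have hm0 : (0 : ℝ) < m := by linarith
  have hn0 : (0 : ℝ) < n := by linarith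
  have h1 : 1 - (n : ℝ) / m ≤ Real.log m - Real.log n := by
    rw [← Real.log_div hm0.ne' hn0.ne']
    have := Real.one_sub_inv_le_log_of_pos (div_pos hm0 hn0)
    rwa [inv_div] at this
  refine le_trans ?_ h1
  have hs : 0 < Real.sqrt ((m : ℝ) * n) := Real.sqrt_pos.2 (mul_pos hm0 hn0)
  rcases le_total (m : ℝ) (4 * n) with h4 | h4
  · have h2 : (m : ℝ) / 2 ≤ Real.sqrt ((m : ℝ) * n) := by
      apply Real.le_sqrt_of_sq_le
      nlinarith
    have h3 : 1 / (2 * Real.sqrt ((m : ℝ) * n)) ≤ 1 / m :=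
      one_div_le_one_div_of_le hm0 (by linarith)
    have h5 : 1 / (m : ℝ) ≤ 1 - (n : ℝ) / m := by
      rw [div_le_iff₀ hm0, sub_mul, div_mul_cancel₀ _ hm0.ne']
      linarith
    linarith
  · have h2 : 1 ≤ Real.sqrt ((m : ℝ) * n) := by
      apply Real.le_sqrt_of_sq_le
      nlinarith
    have h3 : 1 / (2 * Real.sqrt ((m : ℝ) * n)) ≤ 1 / 2 :=
      one_div_le_one_div_of_le (by norm_num) (by linarith)
    have h5 : (n : ℝ) / m ≤ 1 / 4 := by
      rw [div_le_iff₀ hm0]
      linarith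
    linarith

/-- LG -/
theorem lg : T_LG := by
  intro m n hm hn hne
  rcases lt_or_gt_of_ne hne with h | h
  · have := lg_aux n m hm h
    rw [abs_sub_comm, mul_comm (m : ℝ)]
    exact this.trans (le_abs_self _)
  · exact (lg_aux m n hn h).trans (le_abs_self _)

/-- UB -/
theorem ub : T_UB := by
  intro N hN
  have hN' : (0 : ℝ) < N := by exact_mod_cast hN
  have hG : 0 < Real.Gamma N := Real.Gamma_pos_of_pos hN'
  set w0 : ℝ := (N : ℝ) ^ N / Real.Gamma N * Real.exp (-(2 * N)) with hw0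
  have hw0' : 0 < w0 := by positivity
  refine ⟨1 / w0, by positivity, fun T Q f hT hQ hf hf0 hint hle => ?_⟩
  have hW : ∀ t ∈ Ioc T (2 * T), w0 ≤ W N T t := by
    intro t ht
    unfold W
    have h1 : 1 ≤ (t / T) ^ N := by
      refine one_le_pow₀ ?_
      rw [one_le_div hT]
      exact ht.1.le
    have h2 : Real.exp (-(2 * N)) ≤ Real.exp (-(N * t / T)) := by
      apply Real.exp_le_exp.2
      apply neg_le_neg
      rw [div_le_iff₀ hT]
      nlinarith [ht.2]
    rw [hw0]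
    have h3 : 0 < (N : ℝ) ^ N / Real.Gamma N := by positivity
    calc (N : ℝ) ^ N / Real.Gamma N * Real.exp (-(2 * N)) ≤
          (N : ℝ) ^ N / Real.Gamma N * Real.exp (-(N * t / T)) := by gcongr
      _ = (N : ℝ) ^ N / Real.Gamma N * 1 * Real.exp (-(N * t / T)) := by ring
      _ ≤ _ := by gcongr
  have hW0 : ∀ t ∈ Ioi (0 : ℝ), 0 ≤ W N T t := by
    intro t ht
    have ht' : (0 : ℝ) < t := ht
    unfold W
    positivity
  rw [intervalIntegral.integral_of_le (by linarith)]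
  have hsub : Ioc T (2 * T) ⊆ Ioi (0 : ℝ) := fun t ht => lt_trans hT ht.1
  have h1 : ∫ t in Ioc T (2 * T), w0 * f t ≤ ∫ t in Ioc T (2 * T), W N T t * f t := by
    refine setIntegral_mono_on ?_ (hint.mono_set hsub) measurableSet_Ioc ?_
    · exact ((hf.integrableOn_Icc (a := T) (b := 2 * T)).mono_set Ioc_subset_Icc_self).const_mul _
    · intro t ht
      exact mul_le_mul_of_nonneg_right (hW t ht) (hf0 t)
  have h2 : ∫ t in Ioc T (2 * T), W N T t * f t ≤ ∫ t in Ioi (0 : ℝ), W N T t * f t := by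
    refine setIntegral_mono_set hint ?_ (HasSubset.Subset.eventuallyLE hsub)
    filter_upwards [ae_restrict_mem measurableSet_Ioi] with t ht
    exact mul_nonneg (hW0 t ht) (hf0 t)
  rw [integral_const_mul] at h1
  have h3 : w0 * ∫ t in Ioc T (2 * T), f t ≤ T * Q := h1.trans (h2.trans hle)
  rw [mul_assoc, one_div, ← div_eq_inv_mul, le_div_iff₀ hw0', mul_comm]
  exact h3

/-- QB -/
theorem qb (hqa : T_QA) (hqr : T_QR) (hzq : T_ZQ) : T_QB := by
  intro q hq
  obtain ⟨C, hC, hR⟩ := hqr q hq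
  obtain ⟨-, ⟨c₁, c₂, hc₁, hc₂, hz⟩, -⟩ := hzq q hq
  refine ⟨2 * C, by linarith, fun s Y hs hs2 hY hv hsm => ?_⟩
  set v := (s - 1) * Real.log Y with hvdef
  obtain ⟨b, hb, hbG⟩ := hqa q Y s hq (by omega) hs
  refine ⟨b, hb, ?_⟩
  have h1 := hR s Y hs hs2 hY hv
  have hz0 : 0 < zq q s := by
    have := (hz s hs hs2).1
    have h2 : 0 < c₁ / (s - 1) := div_pos hc₁ (by linarith)
    linarith
  set x := C * v * Real.exp (-v) with hx
  have hx0 : 0 ≤ x := by positivity
  have hx4 : 2 * x ≤ 1 / 2 := by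
    have e : 2 * x = 2 * C * v * Real.exp (-v) := by rw [hx]; ring
    rw [e]
    exact hsm
  have h2 : (1 - x) * zq q s ≤ GS q Y s := by
    have : zq q s - GS q Y s ≤ x * zq q s := h1
    linarith
  have hG0 : 0 < GS q Y s := lt_of_lt_of_le (mul_pos (by linarith) hz0) h2
  have hQ : Qf b Y s = 1 / GS q Y s := by
    rw [eq_div_iff hG0.ne']
    exact hbG
  rw [hQ, mul_one_div, div_le_iff₀ hG0]
  have h3 : (1 : ℝ) ≤ (1 + 2 * x) * (1 - x) := by nlinarith
  have h4 : 2 * C * v * Real.exp (-v) = 2 * x := by rw [hx]; ring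
  rw [h4]
  calc zq q s = 1 * zq q s := (one_mul _).symm
    _ ≤ (1 + 2 * x) * (1 - x) * zq q s := mul_le_mul_of_nonneg_right h3 hz0.le
    _ = (1 + 2 * x) * ((1 - x) * zq q s) := by ring
    _ ≤ (1 + 2 * x) * GS q Y s := mul_le_mul_of_nonneg_left h2 (by linarith)

end Pool.Agent.H29.PZ
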