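import Pool.Agent.H28.MZ.Targets

/-!
# PZ project: PS, the quadratic form of the dual term is non-negative
-/

set_option autoImplicit false

open Complex MeasureTheory Set
open scoped ArithmeticFunction.zeta ArithmeticFunction.Moebius

namespace Pool.Agent.H29.PZ

open Pool.Agent.H28.MZ

/-- `n ↦ n^w` -/
noncomputable def fw (w : ℝ) : ArithmeticFunction ℝ :=
  ⟨fun n => if n = 0 then 0 else (n : ℝ) ^ w, by simp⟩

lemma fw_apply (w : ℝ) {n : ℕ} (hn : n ≠ 0) : fw w n = (n : ℝ) ^ w := by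
  change (if n = 0 then 0 else (n : ℝ) ^ w) = _
  rw [if_neg hn]

lemma fw_mult (w : ℝ) : (fw w).IsMultiplicative := by
  rw [ArithmeticFunction.IsMultiplicative.iff_ne_zero]
  refine ⟨by rw [fw_apply w one_ne_zero]; simp, ?_⟩
  intro m n hm hn _
  rw [fw_apply w (mul_ne_zero hm hn), fw_apply w hm, fw_apply w hn, Nat.cast_mul,
    Real.mul_rpow (Nat.cast_nonneg _) (Nat.cast_nonneg _)]

/-- Jordan's function with a real exponent -/
noncomputable def Jw (w : ℝ) : ArithmeticFunction ℝ :=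
  ((ArithmeticFunction.moebius : ArithmeticFunction ℤ) : ArithmeticFunction ℝ) * fw w

lemma Jw_mult (w : ℝ) : (Jw w).IsMultiplicative :=
  (ArithmeticFunction.isMultiplicative_moebius.intCast).mul (fw_mult w)

lemma sum_Jw (w : ℝ) {n : ℕ} (hn : n ≠ 0) : ∑ d ∈ n.divisors, Jw w d = (n : ℝ) ^ w := by
  have h1 : Jw w * (ArithmeticFunction.zeta : ArithmeticFunction ℝ) = fw w := by
    unfold Jw
    rw [mul_right_comm, ArithmeticFunction.coe_moebius_mul_coe_zeta, one_mul]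
  rw [← fw_apply w hn, ← h1, ArithmeticFunction.coe_mul_zeta_apply]

lemma Jw_pp {w : ℝ} (hw : 0 ≤ w) {p : ℕ} (hp : p.Prime) (k : ℕ) : 0 ≤ Jw w (p ^ k) := by
  cases k with
  | zero =>
    rw [pow_zero, (Jw_mult w).map_one]
    exact zero_le_one
  | succ k =>
    have h1 := sum_Jw w (pow_ne_zero (k + 1) hp.ne_zero)
    have h2 := sum_Jw w (pow_ne_zero k hp.ne_zero)
    rw [Nat.divisors_prime_pow hp, Finset.sum_map] at h1 h2
    rw [Finset.sum_range_succ] at h1
    have h3 : ((p ^ k : ℕ) : ℝ) ^ w ≤ ((p ^ (k + 1) : ℕ) : ℝ) ^ w := by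
      refine Real.rpow_le_rpow (Nat.cast_nonneg _) ?_ hw
      exact_mod_cast Nat.pow_le_pow_right hp.pos (by omega)
    rw [h2] at h1
    have h4 : Jw w (p ^ (k + 1)) = ((p ^ (k + 1) : ℕ) : ℝ) ^ w - ((p ^ k : ℕ) : ℝ) ^ w := by
      rw [← h1]
      simp
    rw [h4]
    linarith

lemma Jw_nonneg {w : ℝ} (hw : 0 ≤ w) (n : ℕ) : 0 ≤ Jw w n := by
  rcases eq_or_ne n 0 with rfl | hn
  · simp
  · rw [(Jw_mult w).multiplicative_factorization _ hn]
    refine Finset.prod_nonneg fun p hp => Jw_pp hw ?_ _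
    exact Nat.prime_of_mem_primeFactors hp

/-- PS -/
theorem ps : T_PS := by
  intro b Y σ h1 h2
  set w : ℝ := 2 - 2 * σ with hw
  have hw0 : 0 ≤ w := by linarith
  set c : ℕ → ℕ → ℝ := fun h d => if d ∣ h then b h / h else 0 with hc
  have key : ∀ h ∈ Finset.Icc 1 Y, ∀ k ∈ Finset.Icc 1 Y,
      b h * b k * (((h : ℝ) * k) ^ (-σ) * (PP h k) ^ (σ - 1)) =
      ∑ d ∈ Finset.Icc 1 Y, Jw w d * c h d * c k d := by
    intro h hh k hk
    rw [Finset.mem_Icc] at hh hk
    have hh0 : (0 : ℝ) < h := by exact_mod_cast (by omega : 0 < h)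
    have hk0 : (0 : ℝ) < k := by exact_mod_cast (by omega : 0 < k)
    have hg : Nat.gcd h k ≠ 0 := Nat.gcd_ne_zero_left (by omega)
    have hg0 : (0 : ℝ) < Nat.gcd h k := by exact_mod_cast Nat.pos_of_ne_zero hg
    have e1 : ((h : ℝ) * k) ^ (-σ) * (PP h k) ^ (σ - 1) = ((h : ℝ) * k)⁻¹ * (Nat.gcd h k : ℝ) ^ w := by
      unfold PP
      rw [Real.div_rpow (by positivity) (by positivity), ← mul_div_assoc,
        ← Real.rpow_add (by positivity), ← Real.rpow_natCast, ← Real.rpow_mul hg0.le,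
        div_eq_mul_inv, ← Real.rpow_neg hg0.le, ← Real.rpow_neg_one]
      congr 2
      · ring
      · push_cast
        ring
    rw [e1, ← sum_Jw w hg]
    have e2 : ∑ d ∈ Finset.Icc 1 Y, Jw w d * c h d * c k d =
        ∑ d ∈ (Nat.gcd h k).divisors, Jw w d * (b h / h) * (b k / k) := by
      symm
      refine Finset.sum_subset_zero_on_sdiff ?_ ?_ ?_
      · intro d hd
        rw [Nat.mem_divisors] at hd
        rw [Finset.mem_Icc]
        have hd1 := Nat.pos_of_dvd_of_pos hd.1 (Nat.pos_of_ne_zero hg)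
        have hd2 := Nat.le_of_dvd (by omega) (hd.1.trans (Nat.gcd_dvd_left h k))
        omega
      · intro d hd
        rw [Finset.mem_sdiff, Nat.mem_divisors] at hd
        have : ¬ (d ∣ h ∧ d ∣ k) := fun h' => hd.2 ⟨Nat.dvd_gcd h'.1 h'.2, hg⟩
        simp only [hc]
        by_cases h3 : d ∣ h
        · have h4 : ¬ d ∣ k := fun h' => this ⟨h3, h'⟩
          simp [h4]
        · simp [h3]
      · intro d hd
        rw [Nat.mem_divisors] at hd
        simp only [hc]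
        rw [if_pos (hd.1.trans (Nat.gcd_dvd_left h k)), if_pos (hd.1.trans (Nat.gcd_dvd_right h k))]
    rw [e2, Finset.mul_sum, Finset.mul_sum]
    refine Finset.sum_congr rfl fun d _ => ?_
    field_simp
  unfold Qd
  rw [Finset.sum_congr rfl fun h hh => Finset.sum_congr rfl fun k hk => key h hh k hk]
  have e3 : ∑ h ∈ Finset.Icc 1 Y, ∑ k ∈ Finset.Icc 1 Y, ∑ d ∈ Finset.Icc 1 Y,
      Jw w d * c h d * c k d = ∑ d ∈ Finset.Icc 1 Y, Jw w d * (∑ h ∈ Finset.Icc 1 Y, c h d) ^ 2 := by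
    have e4 : ∀ h ∈ Finset.Icc 1 Y, ∑ k ∈ Finset.Icc 1 Y, ∑ d ∈ Finset.Icc 1 Y,
        Jw w d * c h d * c k d = ∑ d ∈ Finset.Icc 1 Y, ∑ k ∈ Finset.Icc 1 Y,
          Jw w d * c h d * c k d := fun h _ => Finset.sum_comm
    rw [Finset.sum_congr rfl e4, Finset.sum_comm]
    refine Finset.sum_congr rfl fun d _ => ?_
    rw [sq, Finset.sum_mul_sum, Finset.mul_sum]
    refine Finset.sum_congr rfl fun h _ => ?_
    rw [Finset.mul_sum]
    refine Finset.sum_congr rfl fun k _ => ?_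
    ring
  rw [e3]
  exact Finset.sum_nonneg fun d _ => mul_nonneg (Jw_nonneg hw0 d) (sq_nonneg _)

end Pool.Agent.H29.PZ
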