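import Pool.Agent.H29.PZ.OR

/-!
# PZ project: XA, size of the factor of the functional equation
-/

set_option autoImplicit false

open Complex MeasureTheory Set Filter Topology

namespace Pool.Agent.H29.PZ

open Pool.Agent.H28.MZ Pool.Agent.H23.GLH

lemma gammaC_conj (z : ℂ) : Gammaℂ ((starRingEnd ℂ) z) = (starRingEnd ℂ) (Gammaℂ z) := by
  unfold Gammaℂ
  have h2pi : (2 * Real.pi : ℂ) = ((2 * Real.pi : ℝ) : ℂ) := by push_cast; ring
  have harg : (2 * Real.pi : ℂ).arg ≠ Real.pi := by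
    rw [h2pi, Complex.arg_ofReal_of_nonneg (by positivity)]
    exact Real.pi_pos.ne
  have hc : (2 * Real.pi : ℂ) ^ (-(starRingEnd ℂ) z) =
      (starRingEnd ℂ) ((2 * Real.pi : ℂ) ^ (-z)) := by
    rw [← map_neg, Complex.cpow_conj _ _ harg]
    congr 2
    rw [h2pi, Complex.conj_ofReal]
  rw [Complex.Gamma_conj, map_mul, map_mul, hc, map_ofNat]

/-- XA -/
theorem xa (hth : T_TH) : T_XA := by
  intro π
  obtain ⟨C, hC, hTH⟩ := hth
  obtain ⟨ε, κ, hε, hκ, hfe⟩ := fe π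
  have hqn := π.q_ne
  have hq : (0 : ℝ) < π.q := Nat.cast_pos.mpr (NeZero.pos π.q)
  refine ⟨C, hC, fun t η ht hη hη2 => ?_⟩
  have ht0 : 0 < t := by linarith
  set A : ℂ := ((1 / 2 + η : ℝ) : ℂ) with hA
  set w : ℂ := A + t * I with hw
  have hwim : w.im = t := by simp [hw, hA]
  have hwre : w.re = 1 / 2 + η := by simp [hw, hA]
  have hconj : (starRingEnd ℂ) w = A - t * I := by
    rw [hw, hA, map_add, map_mul, conj_ofReal, conj_ofReal, conj_I]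
    ring
  have h1 := hfe w (by rw [hwim]; exact ht0.ne')
  have hrefl : 1 - (starRingEnd ℂ) w = ((1 / 2 - η : ℝ) : ℂ) + t * I := by
    rw [hconj, hA]
    push_cast
    ring
  rw [hrefl] at h1
  set Y : ℂ := Gammaℂ w * Complex.cos (Real.pi * (w - κ) / 2) with hY
  -- norms
  have hnorm : ‖π.L w‖ * ‖Y‖ = (π.q : ℝ) ^ (-η) * ‖π.L (((1 / 2 - η : ℝ) : ℂ) + t * I)‖ := by
    have h2 := congrArg norm h1
    rw [norm_mul (π.L w) Y, norm_mul (ε * cexp ((1 / 2 - w) * Real.log π.q)), norm_mul ε, hε,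
      one_mul, RCLike.norm_conj, Complex.norm_exp] at h2
    rw [h2]
    congr 1
    rw [Real.rpow_def_of_pos hq]
    congr 1
    rw [mul_comm, Complex.re_ofReal_mul]
    congr 1
    rw [Complex.sub_re, hwre]
    simp
  -- `‖Y‖² = Rf`
  have hRf : Rf κ A t = ((‖Y‖ ^ 2 : ℝ) : ℂ) := by
    have e1 : (starRingEnd ℂ) Y = Gammaℂ (A - t * I) *
        Complex.cos (Real.pi * (A - t * I - κ) / 2) := by
      rw [hY, map_mul, ← gammaC_conj, hconj, ← Complex.cos_conj]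
      congr 2
      rw [map_div₀, map_mul, map_sub, hconj, conj_ofReal, conj_ofReal, map_ofNat]
    have e2 : Rf κ A t = Y * (starRingEnd ℂ) Y := by
      rw [e1]
      rfl
    rw [e2, Complex.mul_conj, Complex.normSq_eq_norm_sq]
  have hT := hTH κ A t hκ (by rw [hA, Complex.ofReal_re]; linarith)
    (by rw [hA, Complex.ofReal_re]; linarith) ht
  have hx0 : 0 < t / (2 * Real.pi) := by positivity
  have hexp : cexp ((2 * A - 1) * Real.log (t / (2 * Real.pi))) =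
      (((t / (2 * Real.pi)) ^ (2 * η) : ℝ) : ℂ) := by
    rw [Real.rpow_def_of_pos hx0, Complex.ofReal_exp, hA]
    congr 1
    push_cast
    ring
  rw [hRf, hexp, ← Complex.ofReal_sub, Complex.norm_real, Real.norm_eq_abs, hA,
    Complex.ofReal_re, Complex.ofReal_im] at hT
  have e3 : 2 * (1 / 2 + η) - 1 = 2 * η := by ring
  rw [e3] at hT
  have e4 : Real.exp ((0 : ℝ) ^ 2 / 2) = 1 := by simp
  rw [e4, mul_one] at hT
  set X : ℝ := (t / (2 * Real.pi)) ^ (2 * η) with hX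
  have hq2 : (π.q : ℝ) ^ (2 * η) * ((π.q : ℝ) ^ (-η)) ^ 2 = 1 := by
    rw [← Real.rpow_natCast, ← Real.rpow_mul hq.le, ← Real.rpow_add hq]
    have : 2 * η + -η * ((2 : ℕ) : ℝ) = 0 := by
      push_cast
      ring
    rw [this, Real.rpow_zero]
  have e5 : ‖π.L (((1 / 2 - η : ℝ) : ℂ) + t * I)‖ ^ 2 =
      (π.q : ℝ) ^ (2 * η) * (‖π.L w‖ ^ 2 * ‖Y‖ ^ 2) := by
    calc ‖π.L (((1 / 2 - η : ℝ) : ℂ) + t * I)‖ ^ 2
        = ((π.q : ℝ) ^ (2 * η) * ((π.q : ℝ) ^ (-η)) ^ 2) *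
            ‖π.L (((1 / 2 - η : ℝ) : ℂ) + t * I)‖ ^ 2 := by rw [hq2, one_mul]
      _ = (π.q : ℝ) ^ (2 * η) * ((π.q : ℝ) ^ (-η) *
            ‖π.L (((1 / 2 - η : ℝ) : ℂ) + t * I)‖) ^ 2 := by ring
      _ = _ := by rw [← hnorm, mul_pow]
  have e6 : (π.q * t / (2 * Real.pi)) ^ (2 * η) = (π.q : ℝ) ^ (2 * η) * X := by
    rw [mul_div_assoc, Real.mul_rpow hq.le hx0.le]
  rw [e5, e6]
  have e8 : (π.q : ℝ) ^ (2 * η) * (‖π.L w‖ ^ 2 * ‖Y‖ ^ 2) -
      (π.q : ℝ) ^ (2 * η) * X * ‖π.L w‖ ^ 2 =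
      ((π.q : ℝ) ^ (2 * η) * ‖π.L w‖ ^ 2) * (‖Y‖ ^ 2 - X) := by ring
  rw [e8, abs_mul, abs_of_nonneg (by positivity)]
  calc (π.q : ℝ) ^ (2 * η) * ‖π.L w‖ ^ 2 * |‖Y‖ ^ 2 - X| ≤
        (π.q : ℝ) ^ (2 * η) * ‖π.L w‖ ^ 2 * (C / t * X) :=
        mul_le_mul_of_nonneg_left hT (by positivity)
    _ = _ := by ring

end Pool.Agent.H29.PZ
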